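import Mathlib
import Pool.Agent.R960.Fam.Pow2

set_option autoImplicit false

/-!
# Quadruplets between consecutive powers in random models of the primes

The integers are decided one after the other; no independence is assumed.  Fix a finite set `Q` of
primes; multiples of the primes of `Q` are never chosen and the other integers `n + 1` are chosen with
conditional probability `(1 + o(1)) ∏_{p ∈ Q} (1 - 1/p)⁻¹ / log n`.  Almost surely, for EVERY exponent
`e ≥ 2` the number of quadruplets `(m, m + 2, m + 6, m + 8)` of chosen integers strictly between `n^e` and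
`(n + 1)^e` is asymptotic to `(𝔖 / e³) n^(e-1) / (log n)⁴`, where `𝔖 > 0` is the product of the Hardy and
Littlewood factors of the primes of `Q`; the number of quadruplets in `(y, y + h]` is
`(𝔖 + o(1)) h / (log y)⁴`, uniformly in `(log y)¹⁰ ≤ h ≤ y`.
-/

open MeasureTheory Filter
open scoped Topology

namespace Pool.Agent.Results.MP_c03ca8_nt.QuadrupletsInSievedModels

/-- the conditional probability that `n + 1` is chosen, given the information up to `n` -/
noncomputable def density {Ω : Type} {mΩ : MeasurableSpace Ω} (μ : Measure Ω) (ℱ : Filtration ℕ mΩ)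
    (A : ℕ → Set Ω) (n : ℕ) : Ω → ℝ := μ[(A (n + 1)).indicator (fun _ => (1 : ℝ)) | ℱ n]

/-- the number of quadruplets `(m, m + 2, m + 6, m + 8)` in `S` strictly between `n^e` and `(n + 1)^e` -/
noncomputable def between (S : Set ℕ) (e n : ℕ) : ℕ :=
  {m : ℕ | m ∈ S ∧ m + 2 ∈ S ∧ m + 6 ∈ S ∧ m + 8 ∈ S ∧ n ^ e < m ∧ m + 8 < (n + 1) ^ e}.ncard

/-- the number of `m` in `(y, y + h]` with `m`, `m + 2`, `m + 6`, `m + 8` in `S` -/
noncomputable def quads (S : Set ℕ) (y h : ℕ) : ℕ :=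
  {m : ℕ | (y < m ∧ m ≤ y + h) ∧ m ∈ S ∧ m + 2 ∈ S ∧ m + 6 ∈ S ∧ m + 8 ∈ S}.ncard

/-- the Hardy and Littlewood factors of the primes of `Q` for the quadruplet pattern -/
noncomputable def quadFactor (Q : Finset ℕ) : ℝ :=
  ∏ p ∈ Q, (1 - (if p = 2 then 1 else if p = 3 then 2 else 4) / (p : ℝ)) / (1 - 1 / (p : ℝ)) ^ 4

lemma occ_quad {p : ℕ} (hp : p.Prime) :
    Pool.Agent.R528.RM.occ {0, 2, 6, 8} p = if p = 2 then 1 else if p = 3 then 2 else 4 := by
  unfold Pool.Agent.R528.RM.occ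
  split_ifs with h h'
  · subst h
    decide
  · subst h'
    decide
  · have h3 : 5 ≤ p := by
      have := hp.two_le
      by_contra hc
      have h4 : p = 4 := by omega
      rw [h4] at hp
      exact absurd hp (by norm_num)
    rcases Nat.lt_or_ge p 9 with h9 | h9
    · interval_cases p
      · decide
      · exact absurd hp (by norm_num)
      · decide
      · exact absurd hp (by norm_num)
    · rw [Finset.image_insert, Finset.image_insert, Finset.image_insert, Finset.image_singleton, Nat.zero_mod,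
        Nat.mod_eq_of_lt (by omega : 2 < p), Nat.mod_eq_of_lt (by omega : 6 < p), Nat.mod_eq_of_lt (by omega : 8 < p)]
      rfl

lemma sing_eq (Q : Finset ℕ) (hQ : ∀ p ∈ Q, p.Prime) : Pool.Agent.R528.RM.singH Q {0, 2, 6, 8} = quadFactor Q := by
  unfold Pool.Agent.R528.RM.singH quadFactor
  refine Finset.prod_congr rfl fun p hp => ?_
  rw [occ_quad (hQ p hp)]
  rw [show ({0, 2, 6, 8} : Finset ℕ).card = 4 from rfl]
  split_ifs <;> norm_num

lemma quad_pos (Q : Finset ℕ) (hQ : ∀ p ∈ Q, p.Prime) : 0 < quadFactor Q := by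
  refine Finset.prod_pos fun p hp => ?_
  have h2 : (2 : ℝ) ≤ p := by exact_mod_cast (hQ p hp).two_le
  have hp0 : (0 : ℝ) < p := by linarith
  have h3 : 0 < 1 - 1 / (p : ℝ) := by
    rw [sub_pos, div_lt_one hp0]
    linarith
  refine div_pos ?_ (by positivity)
  split_ifs with h h'
  · rw [h]
    norm_num
  · rw [h']
    norm_num
  · have h4 : (5 : ℝ) ≤ p := by
      have h5 := (hQ p hp).two_le
      have h6 : 5 ≤ p := by
        by_contra hc
        have h4 : p = 4 := by omega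
        have := hQ p hp
        rw [h4] at this
        exact absurd this (by norm_num)
      exact_mod_cast h6
    rw [sub_pos, div_lt_one hp0]
    linarith

lemma quads_eq (S : Set ℕ) (y h : ℕ) : quads S y h = Pool.Agent.R960.Fam.cntI S {0, 2, 6, 8} y h := by
  unfold quads Pool.Agent.R960.Fam.cntI
  congr 1
  ext m
  simp

lemma between_eq (S : Set ℕ) {e : ℕ} (he : 2 ≤ e) {n : ℕ} (hn : 9 ≤ n) :
    between S e n = Pool.Agent.R960.Fam.cntI S {0, 2, 6, 8} (n ^ e) ((n + 1) ^ e - 9 - n ^ e) := by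
  unfold between Pool.Agent.R960.Fam.cntI
  congr 1
  ext m
  have h1 : n ^ e + 9 ≤ (n + 1) ^ e := by
    obtain ⟨f, rfl⟩ : ∃ f, e = f + 1 := ⟨e - 1, by omega⟩
    have h2 : n ^ f ≤ (n + 1) ^ f := Nat.pow_le_pow_left (by omega) f
    have h3 : n + 1 ≤ (n + 1) ^ f := by
      calc n + 1 = (n + 1) ^ 1 := (pow_one _).symm
        _ ≤ (n + 1) ^ f := Nat.pow_le_pow_right (by omega) (by omega)
    rw [pow_succ, pow_succ]
    nlinarith
  simp only [Finset.mem_insert, Finset.mem_singleton, forall_eq_or_imp, forall_eq, Nat.add_zero, Set.mem_ofPred_eq]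
  constructor
  · rintro ⟨a, b, c, d, f, g⟩
    exact ⟨⟨f, by omega⟩, a, b, c, d⟩
  · rintro ⟨⟨f, g⟩, a, b, c, d⟩
    exact ⟨a, b, c, d, f, by omega⟩

end Pool.Agent.Results.MP_c03ca8_nt.QuadrupletsInSievedModels

open Pool.Agent.Results.MP_c03ca8_nt.QuadrupletsInSievedModels

theorem Pool.Agent.Results.MP_c03ca8_nt.QuadrupletsInSievedModels.result
    {Ω : Type} [mΩ : MeasurableSpace Ω] (μ : Measure Ω) [IsProbabilityMeasure μ]
    (ℱ : Filtration ℕ mΩ) (A : ℕ → Set Ω) (hA : ∀ n, MeasurableSet[ℱ n] (A n))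
    (Q : Finset ℕ) (hQ : ∀ p ∈ Q, p.Prime) (hcop : ∀ n, (∃ p ∈ Q, p ∣ n) → A n = ∅)
    (hd : ∀ᵐ ω ∂μ, Tendsto (fun n : ℕ => density μ ℱ A n ω * Real.log n)
        (atTop ⊓ 𝓟 {n : ℕ | ∀ p ∈ Q, ¬ p ∣ n + 1}) (𝓝 (∏ p ∈ Q, (1 - 1 / (p : ℝ))⁻¹))) :
    0 < quadFactor Q ∧
    ∀ᵐ ω ∂μ,
      (∀ e : ℕ, 2 ≤ e →
        Tendsto (fun n : ℕ => (between {a | ω ∈ A a} e n : ℝ) * Real.log n ^ 4 / (n : ℝ) ^ (e - 1)) atTop
          (𝓝 (quadFactor Q / (e : ℝ) ^ 3)) ∧
        Tendsto (fun n : ℕ => between {a | ω ∈ A a} e n) atTop atTop) ∧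
      ∀ ε : ℝ, 0 < ε → ∀ᶠ y : ℕ in atTop, ∀ h : ℕ, h ≤ y → Real.log y ^ 10 ≤ h →
        |(quads {a | ω ∈ A a} y h : ℝ) * Real.log y ^ 4 / h - quadFactor Q| ≤ ε := by
  refine ⟨quad_pos Q hQ, ?_⟩
  filter_upwards [Pool.Agent.R960.Fam.int_law (μ := μ) hA Q hQ hcop hd] with ω hω
  have hL : Pool.Agent.R960.Fam.Law {a | ω ∈ A a} Q {0, 2, 6, 8} := hω {0, 2, 6, 8}
  constructor
  · intro e he
    have he0 : (0 : ℝ) < e := by exact_mod_cast (by omega : 0 < e)
    have h1 := Pool.Agent.R960.Fam.between_lim hL he 9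
    rw [sing_eq Q hQ] at h1
    have h2 : Tendsto (fun n : ℕ => (between {a | ω ∈ A a} e n : ℝ) * Real.log n ^ 4 / (n : ℝ) ^ (e - 1)) atTop
          (𝓝 (quadFactor Q / (e : ℝ) ^ 3)) := by
      have e1 : quadFactor Q * e / (e : ℝ) ^ ({0, 2, 6, 8} : Finset ℕ).card = quadFactor Q / (e : ℝ) ^ 3 := by
        rw [show ({0, 2, 6, 8} : Finset ℕ).card = 4 from rfl]
        field_simp
      rw [e1] at h1
      refine h1.congr' ?_
      filter_upwards [eventually_ge_atTop 9] with n hn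
      rw [between_eq _ he hn]
      rfl
    exact ⟨h2, Pool.Agent.R960.Fam.tendsto_of_lim (by omega) (div_pos (quad_pos Q hQ) (by positivity)) h2⟩
  · intro ε hε
    filter_upwards [hL ε hε] with y hy h h1 h2
    have h3 := hy h h1 h2
    rw [sing_eq Q hQ] at h3
    rw [quads_eq]
    exact h3
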