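import Pool.Agent.R490.Adm

set_option autoImplicit false

/-!
# Rough quadruplets between consecutive fifth powers: the law of the spacings
-/

namespace Pool.Agent.Results.MP_c03ca8_nt.SpacingLaw

open Finset Filter

/-- The set of shifts `0, 2, 6, 8` of a prime quadruplet. -/
def H : Finset ℕ := {0, 2, 6, 8}

/-- No `m + h`, `h ∈ H`, has a prime factor `≤ y`. -/
def RoughQuadruplet (y m : ℕ) : Prop := ∀ p : ℕ, p.Prime → p ≤ y → ∀ h ∈ H, ¬ p ∣ m + h

/-- The density of these `m`: the product of `1 - 4 / p` over the primes `5 < p ≤ y`, divided by `30`. -/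
noncomputable def V (y : ℕ) : ℝ := (∏ p ∈ (Ioc 5 y).filter Nat.Prime, (1 - ((4 : ℕ) : ℝ) / p)) / ((30 : ℕ) : ℝ)

open Classical in
/-- The number of the `m` between `n ^ 5` and `(n + 1) ^ 5` with `RoughQuadruplet y m` for which fewer than `k` of
the `T` integers before `m` have this property, that is, for which the distance from `m` to the `k`-th
preceding rough quadruplet is larger than `T`. -/
noncomputable def D (y k T n : ℕ) : ℕ :=
  ((Ioo (n ^ 5) ((n + 1) ^ 5)).filter (fun m => RoughQuadruplet y m ∧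
    ((Ico (m - T) m).filter (fun m' => RoughQuadruplet y m')).card < k)).card

open Classical in
/-- **The law of the spacings.** For all `k0`, `x0` and `ε > 0` there is `r0` such that for `r ≥ r0` the
following holds between ANY two consecutive fifth powers `n ^ 5` and `(n + 1) ^ 5`, `n` large, with
`y = n ^ (1 / r)`: among the `m` for which `m`, `m + 2`, `m + 6`, `m + 8` have no prime factor `≤ y`, the
distances to the `k`-th preceding one have, in units `1 / V` and up to `ε`, the distribution which belongs to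
a Poisson process; for `k = 1` it is the exponential distribution. -/
theorem result (k0 : ℕ) (x0 ε : ℝ) (hε : 0 < ε) :
    ∃ r0 : ℕ, ∀ r : ℕ, r0 ≤ r → ∀ᶠ n : ℕ in atTop, ∀ k T : ℕ,
      (k ≤ k0 ∨ T * V ⌊(n : ℝ) ^ (1 / (r : ℝ))⌋₊ ≤ x0) →
        |(D ⌊(n : ℝ) ^ (1 / (r : ℝ))⌋₊ k T n : ℝ) -
          (((n + 1) ^ 5 - 1 - n ^ 5 : ℕ) : ℝ) * V ⌊(n : ℝ) ^ (1 / (r : ℝ))⌋₊ *
            ∑ j ∈ range k, Real.exp (-(T * V ⌊(n : ℝ) ^ (1 / (r : ℝ))⌋₊)) *
              (T * V ⌊(n : ℝ) ^ (1 / (r : ℝ))⌋₊) ^ j / j.factorial| ≤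
          ε * ((((n + 1) ^ 5 - 1 - n ^ 5 : ℕ) : ℝ) * V ⌊(n : ℝ) ^ (1 / (r : ℝ))⌋₊) :=
  Pool.Agent.R490.Pw.gapPow Pool.Agent.R490.Pw.pat_quad (by decide) 5 (by norm_num) RoughQuadruplet 5
    (fun y hy m => by
      rw [Pool.Agent.R490.Pw.quad_iff y hy m]
      unfold RoughQuadruplet H
      simp only [Finset.mem_insert, Finset.mem_singleton, forall_eq_or_imp, forall_eq, add_zero]) k0 x0 ε hε

end Pool.Agent.Results.MP_c03ca8_nt.SpacingLaw
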